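import Pool.Agent.Lib.MP_61a4e3_al.PartMembership
import Pool.Agent.Lib.MP_61a4e3_al.PartIndex
import Pool.Agent.Lib.MP_61a4e3_al.R.Down3

/-! The three parts of the question answered together for `n = m + 1 ≥ d` (for `d = 3, 4, 6` only
for `n ≥ 2 d + 1`): when the index is finite, its value, and the conditions cutting out the image. -/

namespace Pool.Agent.Results.MP_61a4e3_al.Complete

open Pool.Agent.Lib.MP_61a4e3_al Matrix

theorem result (d m : ℕ) (hd : 3 ≤ d)
    (hm : 2 * d ≤ m ∨ (d ≤ m + 1 ∧ d ≠ 3 ∧ d ≠ 4 ∧ d ≠ 6)) :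
    ((burauImage m d).relIndex (unitaryInt m d) ≠ 0 ↔ ¬ d ∣ m + 1 ∨ d = 3 ∨ d = 4 ∨ d = 6) ∧
    ((burauImage m d).relIndex (unitaryInt m d) ≠ 0 →
      (burauImage m d).relIndex (unitaryInt m d) *
          (if IsPrimePow d then (m + 1).factorial else 1) =
        normOne d (m + 1) * (if IsPrimePow d then orthCard d.minFac m
          else if d % 4 = 2 ∧ ¬ IsPrimePow (d / 2) then 2 else 1)) ∧
    (d ≤ m → ∀ g : GL (Fin m) ℂ, g ∈ burauImage m d ↔ g ∈ unitaryInt m d ∧
      (∃ k : ℕ, g.val.det = (-zeta d) ^ k) ∧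
      ∃ (s : Equiv.Perm (Fin (m + 1))) (X : Matrix (Fin m) (Fin m) ℂ),
        (∀ i j, X i j ∈ Algebra.adjoin ℤ {zeta d}) ∧
        (1 + (zeta d)⁻¹) • (1 - g.val) =
          (permVar s + (1 - zeta d) • X) * herm (zeta d) m) := by
  by_cases h2 : 2 * d ≤ m
  · have h : (burauImage m d).relIndex (unitaryInt m d) ≠ 0 ↔
        ¬ d ∣ m + 1 ∨ d = 3 ∨ d = 4 ∨ d = 6 := by
      obtain ⟨O, _, _, _, z, φ, H, hM, inj, hs, hφ, hr, hf, h2', hu, -⟩ :=
        exists_model hd (zeta_prim hd)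
      rw [image_eq H hφ, unitary_eq H inj hs hφ hr, Subgroup.relIndex_map_map_of_injective _ _
        (glmap_inj inj), index_iff H hd ((geom_iff inj hφ hd d).2 dvd_rfl) hM h2 h2'
        (fun h => by simpa [map_ofNat] using congrArg φ h) hf, hu, Ne, geom_iff inj hφ hd]
    refine ⟨h, fun h' => ?_, fun _ => PartMembership.result d m hd h2⟩
    rw [PartIndex.result d m hd h2, if_neg (by have := h.1 h'; tauto)]
  obtain ⟨h1, h3, h4, h6⟩ := hm.resolve_left h2
  have h5 : 5 ≤ d := by omega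
  have mem := fun hdm : d ≤ m => R.membership h5 h6 hdm (show m + 1 ≤ 2 * d by omega)
  by_cases hv : d ∣ m + 1
  · have h0 := R.index_zero h5 h6 hv
    exact ⟨⟨fun h => absurd h0 h, fun h => by omega⟩, fun h => absurd h0 h, mem⟩
  · have a : d ≤ m := by
      rcases h1.eq_or_lt with e | e
      · exact absurd ⟨1, by omega⟩ hv
      · omega
    have b : m + 2 ≤ 2 * d := by
      by_contra c
      exact hv ⟨2, by omega⟩
    exact ⟨⟨fun _ => Or.inl hv, fun _ => R.index_ne h5 h6 a b⟩, fun _ => R.index_val h5 h6 a b, mem⟩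

end Pool.Agent.Results.MP_61a4e3_al.Complete
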